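import Mathlib

/-! Helper file (seat 178): weighted path networks, their resolvent at `1 + i ε`, and the rank-one
modification `(I - c eᵀ) P`. -/

namespace Pool.Agent.Q178.RK

open Finset Complex

/-- `μ` is a complex eigenvalue of the real matrix `M` -/
def IsEigenvalue {n : ℕ} (M : Matrix (Fin n) (Fin n) ℝ) (μ : ℂ) : Prop :=
  ∃ x : Fin n → ℂ, x ≠ 0 ∧ ∀ i, ∑ j, (M i j : ℂ) * x j = μ * x i

/-- symmetric tridiagonal matrix; `b k` is the entry between `k - 1` and `k` -/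
def tri (N : ℕ) (a b : ℕ → ℝ) : Matrix (Fin N) (Fin N) ℝ :=
  fun i j => if (j : ℕ) = i then a i else if (j : ℕ) = i + 1 then b (i + 1)
    else if (i : ℕ) = j + 1 then b i else 0

theorem tri_sum {N : ℕ} {a b : ℕ → ℝ} (hb0 : b 0 = 0) (hbN : b N = 0) (f : ℕ → ℂ) (i : Fin N) :
    ∑ j : Fin N, ((tri N a b i j : ℝ) : ℂ) * f j
      = a i * f i + b (i + 1) * f (i + 1) + b i * f (i - 1) := by
  obtain ⟨i, hi⟩ := i
  have h1 : ∀ j : Fin N, ((tri N a b ⟨i, hi⟩ j : ℝ) : ℂ) * f j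
      = (fun j : ℕ => (if j = i then (a i : ℂ) * f i else 0)
        + (if j = i + 1 then (b (i + 1) : ℂ) * f (i + 1) else 0)
        + (if i = j + 1 then (b i : ℂ) * f (i - 1) else 0)) (j : ℕ) := by
    intro j
    simp only [tri]
    by_cases h : (j : ℕ) = i
    · have h2 : ¬ ((j : ℕ) = i + 1) := by omega
      have h3 : ¬ (i = (j : ℕ) + 1) := by omega
      simp [h]
    · by_cases h2 : (j : ℕ) = i + 1
      · have h3 : ¬ (i = (j : ℕ) + 1) := by omega
        rw [if_neg h, if_pos h2, if_neg h, if_pos h2, if_neg h3, h2]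
        simp
      · by_cases h3 : i = (j : ℕ) + 1
        · rw [if_neg h, if_neg h2, if_neg h, if_neg h2, if_pos h3, if_pos h3]
          have : i - 1 = (j : ℕ) := by omega
          rw [this]; simp
        · rw [if_neg h, if_neg h2, if_neg h3, if_neg h, if_neg h2, if_neg h3]
          simp
  rw [Finset.sum_congr rfl (fun j _ => h1 j)]
  rw [Fin.sum_univ_eq_sum_range (fun j : ℕ => (if j = i then (a i : ℂ) * f i else 0)
        + (if j = i + 1 then (b (i + 1) : ℂ) * f (i + 1) else 0)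
        + (if i = j + 1 then (b i : ℂ) * f (i - 1) else 0)) N]
  rw [Finset.sum_add_distrib, Finset.sum_add_distrib, Finset.sum_ite_eq', Finset.sum_ite_eq']
  rw [if_pos (Finset.mem_range.2 hi)]
  congr 1
  · congr 1
    by_cases h : i + 1 < N
    · rw [if_pos (Finset.mem_range.2 h)]
    · have : i + 1 = N := by omega
      rw [if_neg (by simpa using h)]
      simp only [this, hbN]; simp
  · rcases Nat.eq_zero_or_pos i with h0 | h0
    · subst h0
      simp [hb0]
    · obtain ⟨k, rfl⟩ : ∃ k, i = k + 1 := ⟨i - 1, by omega⟩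
      have : ∀ j ∈ Finset.range N, (if k + 1 = j + 1 then (b (k + 1) : ℂ) * f (k + 1 - 1) else 0)
          = if j = k then (b (k + 1) : ℂ) * f (k + 1 - 1) else 0 := by
        intro j _
        by_cases h : j = k
        · simp [h]
        · have : ¬ (k + 1 = j + 1) := by omega
          rw [if_neg this, if_neg h]
      rw [Finset.sum_congr rfl this, Finset.sum_ite_eq']
      rw [if_pos (Finset.mem_range.2 (by omega))]

theorem tri_symm {N : ℕ} {a b : ℕ → ℝ} (i j : Fin N) : tri N a b i j = tri N a b j i := by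
  simp only [tri]
  by_cases h : (j : ℕ) = i
  · simp [h]
  · have h' : ¬ ((i : ℕ) = j) := fun h' => h h'.symm
    by_cases h2 : (j : ℕ) = i + 1
    · have h3 : ¬ ((i : ℕ) = (j : ℕ) + 1) := by omega
      rw [if_neg h, if_pos h2, if_neg h', if_neg h3, if_pos h2, h2]
    · by_cases h3 : (i : ℕ) = (j : ℕ) + 1
      · rw [if_neg h, if_neg h2, if_pos h3, if_neg h', if_pos h3, h3]
      · rw [if_neg h, if_neg h2, if_neg h3, if_neg h', if_neg h3, if_neg h2]

/-- the network operator -/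
noncomputable def Lw (v e : ℕ → ℝ) (w : ℕ → ℂ) (i : ℕ) : ℂ :=
  (e i * (w i / v i - w (i - 1) / v (i - 1)) + e (i + 1) * (w i / v i - w (i + 1) / v (i + 1)))
    / v i

noncomputable def ad (v e : ℕ → ℝ) (ε : ℝ) (k : ℕ) : ℝ := 1 - ε * ((e k + e (k + 1)) / v k ^ 2)
noncomputable def bd (v e : ℕ → ℝ) (ε : ℝ) (k : ℕ) : ℝ := ε * (e k / (v (k - 1) * v k))

theorem P_mul {N : ℕ} {v e : ℕ → ℝ} {ε : ℝ} (hv : ∀ k, 0 < v k) (he0 : e 0 = 0) (heN : e N = 0)
    (w : ℕ → ℂ) (i : Fin N) :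
    ∑ j : Fin N, ((tri N (ad v e ε) (bd v e ε) i j : ℝ) : ℂ) * w j = w i - ε * Lw v e w i := by
  rw [tri_sum (by simp [bd, he0]) (by simp [bd, heN])]
  have h1 : (v (i : ℕ) : ℂ) ≠ 0 := by exact_mod_cast (hv i).ne'
  have h2 : (v ((i : ℕ) + 1) : ℂ) ≠ 0 := by exact_mod_cast (hv _).ne'
  have h3 : (v ((i : ℕ) - 1) : ℂ) ≠ 0 := by exact_mod_cast (hv _).ne'
  simp only [ad, bd, Lw, Nat.add_sub_cancel]
  push_cast
  field_simp
  ring

theorem energy {v e : ℕ → ℝ} (hv : ∀ k, 0 < v k) (he0 : e 0 = 0) (u : ℕ → ℂ) (n : ℕ) :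
    (∑ i ∈ range (n + 1), (starRingEnd ℂ) (u i) * Lw v e u i).im
      = - ((starRingEnd ℂ) (u n / v n) * (e (n + 1) * (u (n + 1) / v (n + 1) - u n / v n))).im := by
  have key : ∀ i, (starRingEnd ℂ) (u i) * Lw v e u i
      = (starRingEnd ℂ) (u i / v i) * (e i * (u i / v i - u (i - 1) / v (i - 1)))
        - (starRingEnd ℂ) (u i / v i) * (e (i + 1) * (u (i + 1) / v (i + 1) - u i / v i)) := by
    intro i
    have h1 : (v i : ℂ) ≠ 0 := by exact_mod_cast (hv i).ne'
    simp only [Lw, map_div₀, Complex.conj_ofReal]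
    field_simp
    ring
  induction n with
  | zero =>
    rw [Finset.sum_range_one, key]
    simp [he0]
  | succ n ih =>
    rw [Finset.sum_range_succ, Complex.add_im, ih, key, Complex.sub_im]
    have : ((starRingEnd ℂ) (u (n + 1) / v (n + 1) - u n / v n)
        * (e (n + 1) * (u (n + 1) / v (n + 1) - u n / v n))).im = 0 := by
      have : (starRingEnd ℂ) (u (n + 1) / v (n + 1) - u n / v n)
        * (e (n + 1) * (u (n + 1) / v (n + 1) - u n / v n))
        = ((e (n + 1) * Complex.normSq (u (n + 1) / v (n + 1) - u n / v n) : ℝ) : ℂ) := by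
        push_cast
        rw [Complex.normSq_eq_conj_mul_self]
        ring
      rw [this, Complex.ofReal_im]
    rw [map_sub, sub_mul, Complex.sub_im] at this
    simp only [Nat.add_sub_cancel]
    linarith

theorem norm_bound {N : ℕ} (hN : 1 ≤ N) {v e : ℕ → ℝ} (hv : ∀ k, 0 < v k) (he0 : e 0 = 0)
    (heN : e N = 0) (u r : ℕ → ℂ) (h : ∀ i < N, I * u i + Lw v e u i = r i) :
    ∑ i ∈ range N, ‖u i‖ ^ 2 ≤ ∑ i ∈ range N, ‖r i‖ ^ 2 := by
  obtain ⟨n, rfl⟩ : ∃ n, N = n + 1 := ⟨N - 1, by omega⟩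
  have h0 := energy (e := e) hv he0 u n
  rw [heN] at h0
  have h0' : (∑ i ∈ range (n + 1), (starRingEnd ℂ) (u i) * Lw v e u i).im = 0 := by
    rw [h0]; simp
  have h1 : (∑ i ∈ range (n + 1), (starRingEnd ℂ) (u i) * r i).im
      = ∑ i ∈ range (n + 1), ‖u i‖ ^ 2 := by
    have : ∑ i ∈ range (n + 1), (starRingEnd ℂ) (u i) * r i
        = I * ((∑ i ∈ range (n + 1), ‖u i‖ ^ 2 : ℝ) : ℂ)
          + ∑ i ∈ range (n + 1), (starRingEnd ℂ) (u i) * Lw v e u i := by
      push_cast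
      rw [Finset.mul_sum, ← Finset.sum_add_distrib]
      refine Finset.sum_congr rfl fun i hi => ?_
      rw [← h i (Finset.mem_range.1 hi)]
      have : ((‖u i‖ : ℂ)) ^ 2 = (starRingEnd ℂ) (u i) * u i := by
        rw [← Complex.normSq_eq_conj_mul_self, Complex.normSq_eq_norm_sq]; push_cast; rfl
      rw [this]; ring
    rw [this, Complex.add_im, h0', add_zero, Complex.I_mul_im, Complex.ofReal_re]
  have h2 : (∑ i ∈ range (n + 1), (starRingEnd ℂ) (u i) * r i).im
      ≤ ∑ i ∈ range (n + 1), (‖u i‖ ^ 2 + ‖r i‖ ^ 2) / 2 := by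
    rw [Complex.im_sum]
    refine Finset.sum_le_sum fun i _ => ?_
    have h3 : ((starRingEnd ℂ) (u i) * r i).im ≤ ‖(starRingEnd ℂ) (u i) * r i‖ :=
      (le_abs_self _).trans (Complex.abs_im_le_norm _)
    rw [norm_mul, RCLike.norm_conj] at h3
    nlinarith [sq_nonneg (‖u i‖ - ‖r i‖)]
  rw [h1, ← Finset.sum_div, Finset.sum_add_distrib] at h2
  linarith

/-- extension by zero -/
noncomputable def ext {N : ℕ} (x : Fin N → ℂ) (k : ℕ) : ℂ := if h : k < N then x ⟨k, h⟩ else 0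

theorem ext_fin {N : ℕ} (x : Fin N → ℂ) (i : Fin N) : ext x i = x i := by
  simp [ext]

theorem exists_sol {N : ℕ} (hN : 1 ≤ N) {v e : ℕ → ℝ} (hv : ∀ k, 0 < v k) (he0 : e 0 = 0)
    (heN : e N = 0) : ∃ w : ℕ → ℂ, ∀ i < N, I * w i + Lw v e w i = 1 := by
  set A : Matrix (Fin N) (Fin N) ℂ :=
    (1 + I) • (1 : Matrix (Fin N) (Fin N) ℂ) - (tri N (ad v e 1) (bd v e 1)).map (fun x => (x : ℂ))
    with hA
  have hmul : ∀ (x : Fin N → ℂ) (i : Fin N),
      A.mulVec x i = I * ext x i + Lw v e (ext x) i := by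
    intro x i
    have h1 := P_mul (ε := 1) hv he0 heN (ext x) i
    have h2 : ((tri N (ad v e 1) (bd v e 1)).map (fun x => (x : ℂ))).mulVec x i
        = ∑ j : Fin N, ((tri N (ad v e 1) (bd v e 1) i j : ℝ) : ℂ) * ext x j := by
      simp only [Matrix.mulVec, dotProduct, Matrix.map_apply, ext_fin]
    rw [hA, Matrix.sub_mulVec, Pi.sub_apply, h2, h1, Matrix.smul_mulVec, Matrix.one_mulVec,
      Pi.smul_apply, smul_eq_mul, ext_fin]
    push_cast
    ring
  have hinj : Function.Injective A.mulVec := by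
    intro x y hxy
    have h0 : A.mulVec (x - y) = 0 := by rw [Matrix.mulVec_sub, hxy, sub_self]
    have h1 := norm_bound hN hv he0 heN (ext (x - y)) (fun _ => 0) (by
      intro i hi
      have := hmul (x - y) ⟨i, hi⟩
      rw [h0] at this
      exact this.symm)
    have h2 : ∑ i ∈ range N, ‖ext (x - y) i‖ ^ 2 = 0 := by
      apply le_antisymm
      · simpa using h1
      · positivity
    rw [Finset.sum_eq_zero_iff_of_nonneg (fun _ _ => by positivity)] at h2
    have : x - y = 0 := by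
      funext i
      have h3 := h2 i (Finset.mem_range.2 i.2)
      rw [ext_fin] at h3
      simpa using h3
    exact sub_eq_zero.1 this
  have hsurj : Function.Surjective A.mulVec := by
    rw [Matrix.mulVec_surjective_iff_isUnit, ← Matrix.mulVec_injective_iff_isUnit]
    exact hinj
  obtain ⟨x, hx⟩ := hsurj (fun _ => 1)
  refine ⟨ext x, fun i hi => ?_⟩
  have := hmul x ⟨i, hi⟩
  rw [hx] at this
  exact this.symm

/-- Perron vector bounds the moduli of the eigenvalues -/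
theorem rho_le {N : ℕ} {P : Matrix (Fin N) (Fin N) ℝ} (hs : ∀ i j, P i j = P j i)
    (hp : ∀ i j, 0 ≤ P i j) (v : Fin N → ℝ) (hv : ∀ i, 0 < v i)
    (hPv : ∀ i, ∑ j, P i j * v j = v i) (μ : ℂ) (hμ : IsEigenvalue P μ) : ‖μ‖ ≤ 1 := by
  obtain ⟨x, hx0, hx⟩ := hμ
  have h1 : ∀ i, ‖μ‖ * ‖x i‖ ≤ ∑ j, P i j * ‖x j‖ := by
    intro i
    rw [← norm_mul, ← hx i]
    refine (norm_sum_le _ _).trans (Finset.sum_le_sum fun j _ => ?_)
    rw [norm_mul, Complex.norm_real, Real.norm_of_nonneg (hp i j)]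
  have h2 : ‖μ‖ * ∑ i, v i * ‖x i‖ ≤ ∑ i, v i * ‖x i‖ := by
    calc ‖μ‖ * ∑ i, v i * ‖x i‖ = ∑ i, v i * (‖μ‖ * ‖x i‖) := by
          rw [Finset.mul_sum]; exact Finset.sum_congr rfl fun i _ => by ring
      _ ≤ ∑ i, v i * ∑ j, P i j * ‖x j‖ :=
          Finset.sum_le_sum fun i _ => mul_le_mul_of_nonneg_left (h1 i) (hv i).le
      _ = ∑ j, (∑ i, P j i * v i) * ‖x j‖ := by
          simp_rw [Finset.mul_sum, Finset.sum_mul]
          rw [Finset.sum_comm]
          refine Finset.sum_congr rfl fun j _ => Finset.sum_congr rfl fun i _ => ?_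
          rw [hs i j]; ring
      _ = ∑ i, v i * ‖x i‖ := Finset.sum_congr rfl fun j _ => by rw [hPv j]
  have h3 : 0 < ∑ i, v i * ‖x i‖ := by
    obtain ⟨i, hi⟩ := Function.ne_iff.1 hx0
    refine Finset.sum_pos' (fun j _ => mul_nonneg (hv j).le (norm_nonneg _)) ⟨i, mem_univ _, ?_⟩
    exact mul_pos (hv i) (norm_pos_iff.2 hi)
  by_contra hc
  push Not at hc
  nlinarith

/-- the eigenvalue `s` of `(I - c eᵀ) P` -/
theorem eig_F {N : ℕ} {P : Matrix (Fin N) (Fin N) ℝ} (hs : ∀ i j, P i j = P j i)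
    (c : Fin N → ℝ) (hc : ∑ i, c i = 1) (w : Fin N → ℂ) (s : ℂ)
    (hw : ∀ i, s * w i - ∑ j, (P i j : ℂ) * w j = 1) (hcw : ∑ i, (c i : ℂ) * w i = 0) :
    IsEigenvalue ((1 - Matrix.vecMulVec c (fun _ => 1)) * P) s := by
  set F : Matrix (Fin N) (Fin N) ℝ := (1 - Matrix.vecMulVec c (fun _ => 1)) * P with hF
  set z : Fin N → ℂ := fun i => s * w i - 1 with hz
  have hcC : ∑ i, (c i : ℂ) = 1 := by exact_mod_cast hc
  have hcz : ∑ i, (c i : ℂ) * z i = -1 := by
    have : ∑ i, (c i : ℂ) * z i = s * ∑ i, (c i : ℂ) * w i - ∑ i, (c i : ℂ) := by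
      rw [Finset.mul_sum, ← Finset.sum_sub_distrib]
      exact Finset.sum_congr rfl fun i _ => by simp only [hz]; ring
    rw [this, hcw, hcC]; ring
  have hz0 : z ≠ 0 := by
    intro h
    rw [h] at hcz
    simp at hcz
  have hFij : ∀ i j, F i j = P i j - c i * ∑ k, P k j := by
    intro i j
    rw [hF, Matrix.sub_mul, Matrix.one_mul, Matrix.sub_apply, Matrix.mul_apply, Finset.mul_sum]
    simp [Matrix.vecMulVec_apply]
  have hzF : ∀ j, ∑ i, z i * (F i j : ℂ) = s * z j := by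
    intro j
    have e1 : ∑ i, z i * (F i j : ℂ)
        = ∑ i, z i * (P i j : ℂ) - (∑ i, (c i : ℂ) * z i) * ∑ k, (P k j : ℂ) := by
      rw [Finset.sum_mul, ← Finset.sum_sub_distrib]
      refine Finset.sum_congr rfl fun i _ => ?_
      rw [hFij]; push_cast; ring
    rw [e1, hcz]
    have e2 : ∑ i, z i * (P i j : ℂ) - -1 * ∑ k, (P k j : ℂ) = s * ∑ i, (P j i : ℂ) * w i := by
      rw [Finset.mul_sum, Finset.mul_sum, ← Finset.sum_sub_distrib]
      refine Finset.sum_congr rfl fun i _ => ?_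
      rw [hs j i]
      simp only [hz]; ring
    rw [e2]
    have := hw j
    have : ∑ i, (P j i : ℂ) * w i = z j := by simp only [hz]; linear_combination -this
    rw [this]
  -- determinant
  set FC : Matrix (Fin N) (Fin N) ℂ := F.map (fun x => (x : ℂ)) with hFC
  have hdet : (s • (1 : Matrix (Fin N) (Fin N) ℂ) - FC).det = 0 := by
    rw [← Matrix.exists_vecMul_eq_zero_iff]
    refine ⟨z, hz0, ?_⟩
    rw [Matrix.vecMul_sub]
    funext j
    rw [Pi.sub_apply, Matrix.vecMul_smul, Matrix.vecMul_one, Pi.smul_apply, smul_eq_mul]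
    have : Matrix.vecMul z FC j = ∑ i, z i * (F i j : ℂ) := by
      simp only [Matrix.vecMul, dotProduct, hFC, Matrix.map_apply]
    rw [this, hzF, sub_self]; rfl
  rw [← Matrix.exists_mulVec_eq_zero_iff] at hdet
  obtain ⟨x, hx0, hx⟩ := hdet
  refine ⟨x, hx0, fun i => ?_⟩
  have := congrFun hx i
  rw [Matrix.sub_mulVec, Pi.sub_apply, Matrix.smul_mulVec, Matrix.one_mulVec, Pi.smul_apply,
    smul_eq_mul, Pi.zero_apply] at this
  have h4 : Matrix.mulVec FC x i = ∑ j, (F i j : ℂ) * x j := by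
    simp only [Matrix.mulVec, dotProduct, hFC, Matrix.map_apply]
  rw [h4] at this
  exact (sub_eq_zero.1 this).symm

end Pool.Agent.Q178.RK
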