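import Pool.Agent.Q178.RK.A

/-! Helper file (seat 178): the network with a killing site, two single sites and a fast group of
`W` sites. -/

namespace Pool.Agent.Q178.RK

open Finset Complex

noncomputable def vv (S h V : ℝ) : ℕ → ℝ
  | 0 => h / V
  | 1 => 1
  | 2 => 1
  | (_ + 3) => 1 / S

noncomputable def ee (W : ℕ) (S h V : ℝ) : ℕ → ℝ
  | 0 => 0
  | 1 => h ^ 2 / V
  | 2 => 1 / 3
  | 3 => 1 / 3
  | (k + 4) => if k + 1 < W then 1 / (h * S ^ 2) else 0

noncomputable def X1 (S : ℝ) : ℂ := -((S : ℂ) - 1) / 15 + I * ((S : ℂ) - 31) / 30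
noncomputable def X2 (S : ℝ) : ℂ := -((S : ℂ) - 1) / 6 - I * ((S : ℂ) + 5) / 6
noncomputable def X3 (S : ℝ) : ℂ := 7 * ((S : ℂ) - 1) / 30 - I * (26 * (S : ℂ) + 4) / 30

theorem E1 (S : ℝ) : I * X1 S + (X1 S - X2 S) / 3 = 1 := by
  simp only [X1, X2]
  linear_combination (((S : ℂ) - 31) / 30) * I_sq

theorem E2 (S : ℝ) : I * X2 S + (X2 S - X1 S) / 3 + (X2 S - X3 S) / 3 = 1 := by
  simp only [X1, X2, X3]
  linear_combination (-((S : ℂ) + 5) / 6) * I_sq

theorem E3 (S : ℝ) : I * X3 S + (X3 S - X2 S) / 3 = S := by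
  simp only [X2, X3]
  linear_combination (-(26 * (S : ℂ) + 4) / 30) * I_sq

noncomputable def yy (W : ℕ) (S : ℝ) (k : ℕ) : ℂ :=
  (1 - I * X3 S / S) * ((k : ℂ) * (2 * W - k - 1) / 2)

noncomputable def xt (W : ℕ) (S h V : ℝ) : ℕ → ℂ
  | 0 => 1 / (V + I)
  | 1 => X1 S
  | 2 => X2 S
  | (k + 3) => X3 S / S + h * yy W S k

noncomputable def rr (W : ℕ) (S h V : ℝ) : ℕ → ℂ
  | 0 => -h * X1 S
  | 1 => (h ^ 2 / V) * X1 S - h * (1 / (V + I))
  | 2 => 0
  | (k + 3) => I * h * yy W S k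

theorem vv_pos {S h V : ℝ} (hS : 0 < S) (hh : 0 < h) (hV : 0 < V) (k : ℕ) : 0 < vv S h V k := by
  match k with
  | 0 => exact div_pos hh hV
  | 1 => exact one_pos
  | 2 => exact one_pos
  | (_ + 3) => exact div_pos one_pos hS

theorem VI_ne (V : ℝ) : (V : ℂ) + I ≠ 0 := by
  intro h
  have := congrArg Complex.im h
  simp at this

theorem ee_zero (W : ℕ) (S h V : ℝ) : ee W S h V 0 = 0 := rfl

theorem ee_last {W : ℕ} (hW : 1 ≤ W) (S h V : ℝ) : ee W S h V (W + 3) = 0 := by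
  obtain ⟨k, rfl⟩ : ∃ k, W = k + 1 := ⟨W - 1, by omega⟩
  show (if k + 1 < k + 1 then 1 / (h * S ^ 2) else 0) = 0
  simp

theorem residual {W : ℕ} (hW : 2 ≤ W) {S h V : ℝ} (hS : 0 < S) (hh : 0 < h) (hV : 0 < V)
    (hSW : S ^ 2 = W) (i : ℕ) (hi : i < W + 3) :
    I * xt W S h V i + Lw (vv S h V) (ee W S h V) (xt W S h V) i = 1 + rr W S h V i := by
  have hSC : (S : ℂ) ≠ 0 := by exact_mod_cast hS.ne'
  have hhC : (h : ℂ) ≠ 0 := by exact_mod_cast hh.ne'
  have hVC : (V : ℂ) ≠ 0 := by exact_mod_cast hV.ne'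
  have hVI := VI_ne V
  have hWC : (S : ℂ) ^ 2 = W := by exact_mod_cast hSW
  have e1 := E1 S
  have e2 := E2 S
  have e3 := E3 S
  match i with
  | 0 =>
    simp only [Lw, xt, vv, ee, rr, Complex.ofReal_zero, zero_mul, zero_add]
    push_cast
    field_simp
    ring
  | 1 =>
    simp only [Lw, xt, vv, ee, rr, Nat.sub_self]
    push_cast
    have : ((h : ℂ) ^ 2 / V * (X1 S / 1 - 1 / (V + I) / (h / V)) + 1 / 3 * (X1 S / 1 - X2 S / 1)) / 1
        = (h ^ 2 / V) * X1 S - h * (1 / (V + I)) + (X1 S - X2 S) / 3 := by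
      field_simp
    rw [this]
    linear_combination e1
  | 2 =>
    have hy : yy W S 0 = 0 := by simp [yy]
    simp only [Lw, xt, vv, ee, rr, hy]
    push_cast
    have : ((1 : ℂ) / 3 * (X2 S / 1 - X1 S / 1) + 1 / 3 * (X2 S / 1 - (X3 S / S + h * 0) / (1 / S)))
        / 1 = (X2 S - X1 S) / 3 + (X2 S - X3 S) / 3 := by
      field_simp
      ring
    rw [this]
    linear_combination e2
  | 3 =>
    have hy : yy W S 0 = 0 := by simp [yy]
    have hy1 : yy W S 1 = (1 - I * X3 S / S) * (W - 1) := by simp only [yy]; push_cast; ring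
    have hW1 : 0 + 1 < W := by omega
    show I * xt W S h V (0 + 3) + (ee W S h V (0 + 3) * (xt W S h V (0 + 3) / vv S h V (0 + 3)
      - xt W S h V 2 / vv S h V 2) + ee W S h V (0 + 4) * (xt W S h V (0 + 3) / vv S h V (0 + 3)
      - xt W S h V (1 + 3) / vv S h V (1 + 3))) / vv S h V (0 + 3) = 1 + rr W S h V (0 + 3)
    simp only [xt, vv, ee, rr, hy, hy1, if_pos hW1]
    push_cast
    have : ((1 : ℂ) / 3 * ((X3 S / S + h * 0) / (1 / S) - X2 S / 1)
        + 1 / (h * S ^ 2) * ((X3 S / S + h * 0) / (1 / S)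
          - (X3 S / S + h * ((1 - I * X3 S / S) * (W - 1))) / (1 / S))) / (1 / S)
        = S * ((X3 S - X2 S) / 3) - (1 - I * X3 S / S) * (W - 1) := by
      field_simp
      ring
    rw [this]
    have h5 : (X3 S - X2 S) / 3 = S - I * X3 S := by linear_combination e3
    rw [h5, ← hWC]
    field_simp
    ring
  | (k + 4) =>
    have hk : k + 1 < W := by omega
    show I * xt W S h V ((k + 1) + 3) + (ee W S h V (k + 4) * (xt W S h V ((k + 1) + 3) /
      vv S h V ((k + 1) + 3) - xt W S h V (k + 3) / vv S h V (k + 3)) + ee W S h V ((k + 1) + 4)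
      * (xt W S h V ((k + 1) + 3) / vv S h V ((k + 1) + 3) - xt W S h V ((k + 2) + 3) /
      vv S h V ((k + 2) + 3))) / vv S h V ((k + 1) + 3) = 1 + rr W S h V ((k + 1) + 3)
    simp only [xt, vv, ee, rr, if_pos hk]
    have hq : yy W S (k + 1) - yy W S k = (1 - I * X3 S / S) * (W - k - 1) := by
      simp only [yy]; push_cast; ring
    have hq2 : ((if k + 1 + 1 < W then 1 / (h * S ^ 2) else 0 : ℝ) : ℂ) * S ^ 2 * h
        * (yy W S (k + 1) - yy W S (k + 2)) = -(1 - I * X3 S / S) * (W - k - 2) := by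
      split_ifs with h6
      · have : yy W S (k + 1) - yy W S (k + 2) = -(1 - I * X3 S / S) * (W - k - 2) := by
          simp only [yy]; push_cast; ring
        rw [this]
        push_cast
        field_simp
      · have h7 : W = k + 2 := by omega
        rw [h7]; push_cast; ring
    generalize ((if k + 1 + 1 < W then 1 / (h * S ^ 2) else 0 : ℝ)) = E at hq2 ⊢
    push_cast
    have : (1 / ((h : ℂ) * S ^ 2) * ((X3 S / S + h * yy W S (k + 1)) / (1 / S)
          - (X3 S / S + h * yy W S k) / (1 / S))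
        + E * ((X3 S / S + h * yy W S (k + 1)) / (1 / S)
          - (X3 S / S + h * yy W S (k + 2)) / (1 / S))) / (1 / S)
        = (yy W S (k + 1) - yy W S k) + E * S ^ 2 * h * (yy W S (k + 1) - yy W S (k + 2)) := by
      field_simp
      ring
    rw [this, hq, hq2]
    field_simp
    ring

/-- `h`-independent bound for the residual -/
noncomputable def CC (W : ℕ) (S V : ℝ) : ℝ :=
  ‖X1 S‖ + ‖X1 S‖ / V + ‖1 / ((V : ℂ) + I)‖ + ∑ k ∈ range W, ‖yy W S k‖

theorem rr_le {W : ℕ} {S h V : ℝ} (hh : 0 < h) (hh1 : h ≤ 1) (hV : 0 < V)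
    (i : ℕ) (hi : i < W + 3) : ‖rr W S h V i‖ ≤ h * CC W S V := by
  have a1 : 0 ≤ ‖X1 S‖ := norm_nonneg _
  have a2 : 0 ≤ ‖X1 S‖ / V := by positivity
  have a3 : 0 ≤ ‖1 / ((V : ℂ) + I)‖ := norm_nonneg _
  have a4 : 0 ≤ ∑ k ∈ range W, ‖yy W S k‖ := by positivity
  match i with
  | 0 =>
    simp only [rr, CC]
    rw [norm_mul, norm_neg, Complex.norm_real, Real.norm_of_nonneg hh.le]
    exact mul_le_mul_of_nonneg_left (by linarith) hh.le
  | 1 =>
    simp only [rr, CC]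
    refine (norm_sub_le _ _).trans ?_
    rw [norm_mul, norm_mul, norm_div, norm_pow, Complex.norm_real, Complex.norm_real,
      Real.norm_of_nonneg hh.le, Real.norm_of_nonneg hV.le]
    have h1 : h ^ 2 / V * ‖X1 S‖ ≤ h * (‖X1 S‖ / V) := by
      have : h ^ 2 / V * ‖X1 S‖ = h * (h * (‖X1 S‖ / V)) := by ring
      rw [this]
      exact mul_le_mul_of_nonneg_left (by nlinarith) hh.le
    have h2 : h * (‖X1 S‖ + ‖X1 S‖ / V + ‖1 / ((V : ℂ) + I)‖ + ∑ k ∈ range W, ‖yy W S k‖)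
        = h * (‖X1 S‖ / V) + h * ‖1 / ((V : ℂ) + I)‖ + h * (‖X1 S‖ + ∑ k ∈ range W, ‖yy W S k‖) := by
      ring
    rw [h2]
    have h3 : 0 ≤ h * (‖X1 S‖ + ∑ k ∈ range W, ‖yy W S k‖) := by positivity
    linarith
  | 2 =>
    simp only [rr, CC, norm_zero]
    positivity
  | (k + 3) =>
    simp only [rr, CC]
    rw [norm_mul, norm_mul, Complex.norm_I, Complex.norm_real, Real.norm_of_nonneg hh.le, one_mul]
    refine mul_le_mul_of_nonneg_left ?_ hh.le
    have : ‖yy W S k‖ ≤ ∑ k ∈ range W, ‖yy W S k‖ :=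
      Finset.single_le_sum (f := fun k => ‖yy W S k‖) (fun _ _ => norm_nonneg _)
        (Finset.mem_range.2 (by omega))
    linarith

theorem Lw_sub {v e : ℕ → ℝ} (u w : ℕ → ℂ) (i : ℕ) :
    Lw v e (fun k => u k - w k) i = Lw v e u i - Lw v e w i := by
  simp only [Lw]; ring

/-- the solution of the network equation is close to the limit values at the first three sites -/
theorem near {W : ℕ} (hW : 2 ≤ W) {S h V : ℝ} (hS : 0 < S) (hh : 0 < h) (hh1 : h ≤ 1)
    (hV : 0 < V) (hSW : S ^ 2 = W) (w : ℕ → ℂ)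
    (hw : ∀ i < W + 3, I * w i + Lw (vv S h V) (ee W S h V) w i = 1) (i : ℕ) (hi : i < W + 3) :
    ‖w i - xt W S h V i‖ ^ 2 ≤ (W + 3 : ℕ) * (h * CC W S V) ^ 2 := by
  have h1 := norm_bound (N := W + 3) (by omega) (v := vv S h V) (e := ee W S h V)
    (vv_pos hS hh hV) rfl (ee_last (by omega) S h V) (fun k => w k - xt W S h V k)
    (fun k => - rr W S h V k) (by
      intro i hi
      rw [Lw_sub]
      have := hw i hi
      have h2 := residual hW hS hh hV hSW i hi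
      linear_combination this - h2)
  have h2 : ‖w i - xt W S h V i‖ ^ 2 ≤ ∑ i ∈ range (W + 3), ‖w i - xt W S h V i‖ ^ 2 :=
    Finset.single_le_sum (f := fun i => ‖w i - xt W S h V i‖ ^ 2) (fun _ _ => by positivity)
      (Finset.mem_range.2 hi)
  have h3 : ∑ i ∈ range (W + 3), ‖-rr W S h V i‖ ^ 2 ≤ ∑ _i ∈ range (W + 3), (h * CC W S V) ^ 2 := by
    refine Finset.sum_le_sum fun i hi => ?_
    rw [norm_neg]
    exact pow_le_pow_left₀ (norm_nonneg _) (rr_le hh hh1 hV i (Finset.mem_range.1 hi)) 2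
  rw [Finset.sum_const, Finset.card_range, nsmul_eq_mul] at h3
  exact h2.trans (h1.trans h3)

/-- the cross product of two complex numbers -/
def cross (u v : ℂ) : ℝ := u.re * v.im - u.im * v.re

theorem cross_id (A B C : ℂ) :
    (cross A C : ℂ) * B + (cross C B : ℂ) * A + (cross B A : ℂ) * C = 0 := by
  apply Complex.ext
  · simp [cross]; ring
  · simp [cross]; ring

theorem cross_cont : Continuous fun p : ℂ × ℂ => cross p.1 p.2 := by
  unfold cross
  fun_prop

/-- values at the first three sites contain `0` in the interior of their convex hull -/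
theorem exists_network {W : ℕ} (hW : 962 ≤ W) :
    ∃ S h V : ℝ, 0 < S ∧ 0 < h ∧ 0 < V ∧ S ^ 2 = W ∧ ∃ w : ℕ → ℂ,
      (∀ i < W + 3, I * w i + Lw (vv S h V) (ee W S h V) w i = 1) ∧
      cross (w 0) (w 2) < 0 ∧ cross (w 2) (w 1) < 0 ∧ cross (w 1) (w 0) < 0 := by
  set S : ℝ := Real.sqrt W with hSdef
  have hWr : (962 : ℝ) ≤ W := by exact_mod_cast hW
  have hSW : S ^ 2 = W := Real.sq_sqrt (by linarith)
  have hS31 : 31 < S := by
    rw [hSdef]
    apply Real.lt_sqrt_of_sq_lt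
    norm_num
    linarith
  have hS : 0 < S := by linarith
  set V : ℝ := 2 * (S - 1) / (S - 31) + 1 with hVdef
  have hV : 0 < V := by
    have : 0 < 2 * (S - 1) / (S - 31) := div_pos (by linarith) (by linarith)
    linarith
  have hV2 : 2 * (S - 1) < V * (S - 31) := by
    have h31 : S - 31 ≠ 0 := by linarith
    rw [hVdef, add_mul, div_mul_cancel₀ _ h31]
    linarith
  -- limit values
  have hk : (1 / ((V : ℂ) + I)) = ((V / (V ^ 2 + 1) : ℝ) : ℂ) - ((1 / (V ^ 2 + 1) : ℝ) : ℂ) * I := by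
    have h1 : (V : ℂ) ^ 2 + 1 ≠ 0 := by
      have : (V ^ 2 + 1 : ℝ) ≠ 0 := by positivity
      exact_mod_cast this
    have h2 := VI_ne V
    push_cast
    rw [div_mul_eq_mul_div, ← sub_div, div_eq_div_iff h2 h1]
    linear_combination I_sq
  have hkre : (1 / ((V : ℂ) + I)).re = V / (V ^ 2 + 1) := by
    rw [hk, Complex.sub_re, Complex.ofReal_re, Complex.re_ofReal_mul, Complex.I_re, mul_zero,
      sub_zero]
  have hkim : (1 / ((V : ℂ) + I)).im = -(1 / (V ^ 2 + 1)) := by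
    rw [hk, Complex.sub_im, Complex.ofReal_im, Complex.im_ofReal_mul, Complex.I_im, mul_one,
      zero_sub]
  have hX1 : X1 S = ((-(S - 1) / 15 : ℝ) : ℂ) + (((S - 31) / 30 : ℝ) : ℂ) * I := by
    simp only [X1]; push_cast; ring
  have hX2 : X2 S = ((-(S - 1) / 6 : ℝ) : ℂ) + ((-(S + 5) / 6 : ℝ) : ℂ) * I := by
    simp only [X2]; push_cast; ring
  have r1 : (X1 S).re = -(S - 1) / 15 := by rw [hX1]; simp
  have i1 : (X1 S).im = (S - 31) / 30 := by rw [hX1]; simp
  have r2 : (X2 S).re = -(S - 1) / 6 := by rw [hX2]; simp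
  have i2 : (X2 S).im = -(S + 5) / 6 := by rw [hX2]; simp
  have hden : 0 < V ^ 2 + 1 := by positivity
  have c1 : cross (1 / ((V : ℂ) + I)) (X2 S) < 0 := by
    simp only [cross, hkre, hkim, r2, i2]
    have : V / (V ^ 2 + 1) * (-(S + 5) / 6) - -(1 / (V ^ 2 + 1)) * (-(S - 1) / 6)
        = -((V * (S + 5) + (S - 1)) / 6 / (V ^ 2 + 1)) := by field_simp; ring
    rw [this]
    have : 0 < (V * (S + 5) + (S - 1)) / 6 / (V ^ 2 + 1) := by
      apply div_pos _ hden
      have : 0 < V * (S + 5) := by positivity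
      linarith
    linarith
  have c2 : cross (X2 S) (X1 S) < 0 := by
    simp only [cross, r1, i1, r2, i2]
    nlinarith
  have c3 : cross (X1 S) (1 / ((V : ℂ) + I)) < 0 := by
    simp only [cross, r1, i1, hkre, hkim]
    have : -(S - 1) / 15 * -(1 / (V ^ 2 + 1)) - (S - 31) / 30 * (V / (V ^ 2 + 1))
        = -((V * (S - 31) - 2 * (S - 1)) / 30 / (V ^ 2 + 1)) := by field_simp; ring
    rw [this]
    have : 0 < (V * (S - 31) - 2 * (S - 1)) / 30 / (V ^ 2 + 1) := by
      apply div_pos _ hden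
      linarith
    linarith
  -- openness
  have hopen : IsOpen {p : ℂ × ℂ × ℂ | cross p.1 p.2.2 < 0 ∧ cross p.2.2 p.2.1 < 0
      ∧ cross p.2.1 p.1 < 0} := by
    refine IsOpen.and ?_ (IsOpen.and ?_ ?_)
    · exact isOpen_lt (cross_cont.comp (f := fun p : ℂ × ℂ × ℂ => (p.1, p.2.2)) (by fun_prop))
        continuous_const
    · exact isOpen_lt (cross_cont.comp (f := fun p : ℂ × ℂ × ℂ => (p.2.2, p.2.1)) (by fun_prop))
        continuous_const
    · exact isOpen_lt (cross_cont.comp (f := fun p : ℂ × ℂ × ℂ => (p.2.1, p.1)) (by fun_prop))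
        continuous_const
  obtain ⟨δ, hδ, hball⟩ := Metric.isOpen_iff.1 hopen (1 / ((V : ℂ) + I), X1 S, X2 S) ⟨c1, c2, c3⟩
  -- choice of h
  have hlim : Filter.Tendsto (fun h : ℝ => ((W + 3 : ℕ) : ℝ) * (h * CC W S V) ^ 2)
      (nhdsWithin 0 (Set.Ioi 0)) (nhds 0) := by
    have : Filter.Tendsto (fun h : ℝ => ((W + 3 : ℕ) : ℝ) * (h * CC W S V) ^ 2)
        (nhds 0) (nhds (((W + 3 : ℕ) : ℝ) * (0 * CC W S V) ^ 2)) := by
      apply Continuous.tendsto
      fun_prop
    rw [zero_mul, zero_pow (two_ne_zero), mul_zero] at this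
    exact this.mono_left nhdsWithin_le_nhds
  have hev : ∀ᶠ h : ℝ in nhdsWithin 0 (Set.Ioi 0),
      ((W + 3 : ℕ) : ℝ) * (h * CC W S V) ^ 2 < δ ^ 2 ∧ 0 < h ∧ h ≤ 1 := by
    refine (hlim.eventually_lt_const (by positivity)).and ?_
    have h1 : ∀ᶠ h : ℝ in nhdsWithin 0 (Set.Ioi 0), 0 < h := eventually_mem_nhdsWithin
    have h2 : ∀ᶠ h : ℝ in nhdsWithin 0 (Set.Ioi 0), h ≤ 1 :=
      nhdsWithin_le_nhds (eventually_le_nhds (by norm_num))
    exact h1.and h2
  obtain ⟨h, hsm, hh, hh1⟩ := hev.exists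
  obtain ⟨w, hw⟩ := exists_sol (N := W + 3) (by omega) (v := vv S h V) (e := ee W S h V)
    (vv_pos hS hh hV) rfl (ee_last (by omega) S h V)
  have hn : ∀ i < W + 3, ‖w i - xt W S h V i‖ < δ := by
    intro i hi
    have := near (by omega) hS hh hh1 hV hSW w hw i hi
    exact lt_of_pow_lt_pow_left₀ 2 hδ.le (lt_of_le_of_lt this hsm)
  have hmem : (w 0, w 1, w 2) ∈ Metric.ball (1 / ((V : ℂ) + I), X1 S, X2 S) δ := by
    rw [Metric.mem_ball, Prod.dist_eq, Prod.dist_eq, max_lt_iff, max_lt_iff]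
    simp only [dist_eq_norm]
    exact ⟨hn 0 (by omega), hn 1 (by omega), hn 2 (by omega)⟩
  obtain ⟨d1, d2, d3⟩ := hball hmem
  exact ⟨S, h, V, hS, hh, hV, hSW, w, hw, d1, d2, d3⟩

end Pool.Agent.Q178.RK
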